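import Pool.Agent.Y481.CC.Defs2
import Pool.Agent.Y170.CY.Fin

/-!
# Project CC, task FINW: the upper bound for the Turaev-Viro invariants from S_UPTW
(after the upper bound half of Pool/Agent/Y170/CY/Fin.lean)
-/

set_option autoImplicit false

namespace Pool.Agent.Y306.CC

open Finset Filter
open Pool.Agent.H550R3.Jones (br brf)
open Pool.Agent.W707.TV (vh Rh Rh_pos Rh_two br_vh)
open Pool.Agent.Y481.CC
open Pool.Agent.Y170.CY (vh_root log_poly br_one log_limit)
open scoped Real Topology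

lemma eventually_odd {P : ℕ → Prop} (h : ∀ᶠ M : ℕ in atTop, P (2 * M + 1)) :
    ∀ᶠ r : ℕ in atTop ⊓ 𝓟 {r : ℕ | Odd r}, P r := by
  have h1 : Tendsto (fun r : ℕ => (r - 1) / 2) (atTop ⊓ 𝓟 {r : ℕ | Odd r}) atTop := by
    refine Tendsto.mono_left ?_ inf_le_left
    refine tendsto_atTop.2 fun b => ?_
    filter_upwards [eventually_ge_atTop (2 * b + 1)] with r hr
    omega
  have h2 : ∀ᶠ r : ℕ in atTop ⊓ 𝓟 {r : ℕ | Odd r}, Odd r :=
    Filter.mem_inf_of_right (mem_principal_self _)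
  filter_upwards [h1.eventually h, h2] with r hr ho
  obtain ⟨k, rfl⟩ := ho
  have e : 2 * ((2 * k + 1 - 1) / 2) + 1 = 2 * k + 1 := by omega
  rwa [e] at hr

lemma lob_six_nonneg : 0 ≤ GapVol.lob (π / 6) := by
  unfold GapVol.lob
  rw [← intervalIntegral.integral_neg]
  have hp := Real.pi_pos
  refine intervalIntegral.integral_nonneg (by positivity) fun t ht => ?_
  have h1 : 0 ≤ Real.sin t := Real.sin_nonneg_of_nonneg_of_le_pi ht.1 (by linarith [ht.2])
  have h2 : Real.sin t ≤ 1 / 2 := by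
    rw [← Real.sin_pi_div_six]
    exact Real.sin_le_sin_of_le_of_le_pi_div_two (by linarith [ht.1]) (by linarith) ht.2
  have h3 : Real.log |2 * Real.sin t| ≤ 0 := by
    refine Real.log_nonpos (abs_nonneg _) ?_
    rw [abs_of_nonneg (by linarith)]
    linarith
  linarith

/-- the sum without the prefactor -/
lemma tvcW_eq (w : List Lt) {M : ℕ} (hM : 2 ≤ M) :
    tvcW w (2 * M + 1) = 2 / ((2 * M + 1 : ℕ) : ℝ) * ∑ a ∈ Icc 1 M, ∑ b ∈ Icc 1 M,
      ‖br (vh M) (a : ℤ) * tangW w a b (vh M)‖ ^ 2 := by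
  obtain ⟨h1, h2⟩ := br_one hM
  set r : ℝ := ((2 * M + 1 : ℕ) : ℝ) with hr
  have hr0 : 0 < r := by positivity
  set σ := Real.sin (2 * π / r) with hσ
  have hterm : ∀ a b : ℕ, ‖br (vh M) (a : ℤ) / br (vh M) 1 * tangW w a b (vh M)‖ ^ 2 =
      ‖br (vh M) (a : ℤ) * tangW w a b (vh M)‖ ^ 2 / (2 * σ) ^ 2 := by
    intro a b
    rw [div_mul_eq_mul_div, norm_div, h1, div_pow]
  unfold tvcW
  have e3 : (2 * M + 1 - 1) / 2 = M := by omega
  rw [e3, ← vh_root, ← hr]
  have e4 : ∑ a ∈ Icc 1 M, ∑ b ∈ Icc 1 M,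
      ‖br (vh M) (a : ℤ) / br (vh M) 1 * tangW w a b (vh M)‖ ^ 2 =
      (∑ a ∈ Icc 1 M, ∑ b ∈ Icc 1 M,
        ‖br (vh M) (a : ℤ) * tangW w a b (vh M)‖ ^ 2) / (2 * σ) ^ 2 := by
    rw [Finset.sum_div]
    refine Finset.sum_congr rfl fun i _ => ?_
    rw [Finset.sum_div]
    exact Finset.sum_congr rfl fun j _ => hterm i j
  rw [e4, div_pow, Real.sq_sqrt hr0.le]
  have h3 : (2 * σ) ^ 2 ≠ 0 := by positivity
  field_simp
  rw [← hσ]
  ring

lemma scale_lim :
    Tendsto (fun M : ℕ => 2 * π / (((2 * M + 1 : ℕ) : ℝ) - 2) * M) atTop (𝓝 π) := by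
  have h5 : Tendsto (fun M : ℕ => 2 * π / ((2 : ℝ) - 1 / M)) atTop (𝓝 (2 * π / (2 - 0))) :=
    tendsto_const_nhds.div (tendsto_const_nhds.sub tendsto_one_div_atTop_nhds_zero_nat)
      (by norm_num)
  have e : 2 * π / (2 - 0) = π := by ring
  rw [e] at h5
  refine h5.congr' ?_
  filter_upwards [eventually_gt_atTop 0] with M hM
  have h1 : (1 : ℝ) ≤ M := by exact_mod_cast hM
  have h2 : (M : ℝ) ≠ 0 := by positivity
  have h3 : (2 * (M : ℝ) - 1) ≠ 0 := by
    have : 0 < 2 * (M : ℝ) - 1 := by linarith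
    exact this.ne'
  have h4 : (2 : ℝ) - 1 / M = (2 * M - 1) / M := by
    field_simp
  have h6 : ((2 * M + 1 : ℕ) : ℝ) - 2 = 2 * M - 1 := by
    push_cast
    ring
  rw [h4, h6]
  field_simp

theorem t_FINW : S_UPTW → S_FINW := by
  intro hu w h3 ε hε
  have hp := Real.pi_pos
  set W : ℝ := w.length * (4 * GapVol.lob (π / 6)) with hW
  have hW0 : 0 ≤ W := by
    have := lob_six_nonneg
    positivity
  have hWM : ∀ M : ℕ, (w.length : ℝ) * (M / (2 * π) * (4 * GapVol.lob (π / 6))) =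
      M / (2 * π) * W := by
    intro M
    rw [hW]
    ring
  refine eventually_odd ?_
  set η : ℝ := ε / (4 * π) with hη
  have hη0 : 0 < η := by positivity
  -- the comparison function
  have key := log_limit
    (f := fun M : ℕ => ((2 * M + 1 : ℕ) : ℝ) ^ 2 * Real.exp (M * (W / π) + η * M))
    (V := W / π + η) (t := π)
    (fun M => ((2 * M + 1 : ℕ) : ℝ) ^ 2) (Eventually.of_forall fun M => by positivity)
    (log_poly 2) scale_lim ?_ ?_
  · have e : π * (W / π + η) = W + ε / 4 := by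
      rw [hη]
      field_simp
    rw [e] at key
    have hk : ∀ᶠ M : ℕ in atTop, 2 * π / (((2 * M + 1 : ℕ) : ℝ) - 2) *
        Real.log (((2 * M + 1 : ℕ) : ℝ) ^ 2 * Real.exp (M * (W / π) + η * M)) < W + ε :=
      key.eventually_lt_const (by linarith)
    filter_upwards [hk, hu w h3 (η / 2) (half_pos hη0), eventually_ge_atTop 2] with M hk1 h1 hM
    refine le_trans ?_ hk1.le
    have hM2 : (2 : ℝ) ≤ M := by exact_mod_cast hM
    have hs0 : 0 ≤ 2 * π / (((2 * M + 1 : ℕ) : ℝ) - 2) := by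
      refine div_nonneg (by positivity) ?_
      push_cast
      linarith
    refine mul_le_mul_of_nonneg_left ?_ hs0
    have hr1 : (1 : ℝ) ≤ ((2 * M + 1 : ℕ) : ℝ) := by
      exact_mod_cast (show 1 ≤ 2 * M + 1 by omega)
    have hbig : 1 ≤ ((2 * M + 1 : ℕ) : ℝ) ^ 2 * Real.exp (M * (W / π) + η * M) := by
      have h5 : (1 : ℝ) ≤ ((2 * M + 1 : ℕ) : ℝ) ^ 2 := one_le_pow₀ hr1
      have h6 : (1 : ℝ) ≤ Real.exp (M * (W / π) + η * M) := Real.one_le_exp (by positivity)
      nlinarith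
    have hle : tvcW w (2 * M + 1) ≤
        ((2 * M + 1 : ℕ) : ℝ) ^ 2 * Real.exp (M * (W / π) + η * M) := by
      rw [tvcW_eq w hM]
      set r : ℝ := ((2 * M + 1 : ℕ) : ℝ) with hr
      have hr0 : 0 < r := by positivity
      have hMr : 2 * (M : ℝ) ≤ r := by
        rw [hr]
        push_cast
        linarith
      set E := Real.exp (M / (2 * π) * W + η / 2 * M) with hE
      have hE0 : 0 < E := Real.exp_pos _
      have hsum : ∑ a ∈ Icc 1 M, ∑ b ∈ Icc 1 M,
          ‖br (vh M) (a : ℤ) * tangW w a b (vh M)‖ ^ 2 ≤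
          ∑ _i ∈ Icc 1 M, ∑ _j ∈ Icc 1 M, E ^ 2 := by
        refine Finset.sum_le_sum fun i hi => Finset.sum_le_sum fun j hj => ?_
        rw [Finset.mem_Icc] at hi hj
        refine pow_le_pow_left₀ (norm_nonneg _) ?_ 2
        have h2 := h1 i j hi.1 hj.1 hj.2
        rw [hWM] at h2
        exact h2
      rw [Finset.sum_const, Finset.sum_const, Nat.card_Icc, nsmul_eq_mul, nsmul_eq_mul,
        Nat.add_sub_cancel] at hsum
      have hEe : E ^ 2 = Real.exp (M * (W / π) + η * M) := by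
        rw [hE, ← Real.exp_nat_mul]
        congr 1
        push_cast
        field_simp
      rw [← hEe]
      have hM0 : (0 : ℝ) ≤ M := Nat.cast_nonneg M
      calc 2 / r * ∑ a ∈ Icc 1 M, ∑ b ∈ Icc 1 M,
            ‖br (vh M) (a : ℤ) * tangW w a b (vh M)‖ ^ 2 ≤
          2 / r * (M * (M * E ^ 2)) := mul_le_mul_of_nonneg_left hsum (by positivity)
        _ ≤ 2 / r * (r * (r * E ^ 2)) := by
            refine mul_le_mul_of_nonneg_left ?_ (by positivity)
            have hE2 : 0 ≤ E ^ 2 := by positivity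
            have hMr' : (M : ℝ) ≤ r := by linarith
            gcongr
        _ = 2 * r * E ^ 2 := by
            field_simp
        _ ≤ r ^ 2 * E ^ 2 := by
            refine mul_le_mul_of_nonneg_right ?_ (by positivity)
            have : (2 : ℝ) ≤ r := by
              rw [hr]
              exact_mod_cast (show 2 ≤ 2 * M + 1 by omega)
            nlinarith
    rcases le_or_gt (tvcW w (2 * M + 1)) 0 with h0 | h0
    · have hnn : 0 ≤ tvcW w (2 * M + 1) := by
        rw [tvcW_eq w hM]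
        exact mul_nonneg (by positivity)
          (Finset.sum_nonneg fun _ _ => Finset.sum_nonneg fun _ _ => by positivity)
      have h00 : tvcW w (2 * M + 1) = 0 := le_antisymm h0 hnn
      rw [h00, Real.log_zero]
      exact Real.log_nonneg hbig
    · exact Real.log_le_log h0 hle
  · intro δ hδ
    filter_upwards [eventually_ge_atTop 1] with M hM
    refine mul_le_mul_of_nonneg_left (Real.exp_le_exp.2 ?_) (by positivity)
    have hM0 : (0 : ℝ) ≤ M := Nat.cast_nonneg M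
    nlinarith [mul_nonneg hδ.le hM0]
  · intro δ hδ
    filter_upwards [eventually_ge_atTop 1] with M hM
    have hM0 : (0 : ℝ) ≤ M := Nat.cast_nonneg M
    have hr1 : (1 : ℝ) ≤ ((2 * M + 1 : ℕ) : ℝ) := by
      exact_mod_cast (show 1 ≤ 2 * M + 1 by omega)
    have h5 : (1 : ℝ) ≤ ((2 * M + 1 : ℕ) : ℝ) ^ 2 := one_le_pow₀ hr1
    have h6 : (((2 * M + 1 : ℕ) : ℝ) ^ 2)⁻¹ ≤ ((2 * M + 1 : ℕ) : ℝ) ^ 2 :=
      (inv_le_one_of_one_le₀ h5).trans h5
    refine mul_le_mul h6 (Real.exp_le_exp.2 ?_) (Real.exp_pos _).le (by positivity)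
    nlinarith [mul_nonneg hδ.le hM0]

end Pool.Agent.Y306.CC
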